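import Mathlib
import Pool.Agent.Mg.F89824e.G421621

open Pool.Agent.MP_89824e_co in
theorem Pool.Agent.Results.MP_89824e_co.OddOrder.result (m : ℕ) (hm : 1 ≤ m) :
    ∃ (V : Type) (D : Digraph V), Nat.card V = m * 165 ^ m ∧
      (∀ v, {w | D.Adj v w}.ncard = 2) ∧ (∀ u v, Relation.ReflTransGen D.Adj u v) ∧
      IsLeast {k | HasPres D k} (4 ^ m) :=
  odd_main m hm
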