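import Mathlib
import Pool.Agent.Mg.F89824e.Gab598e

open Polynomial Pool.Agent.MP_89824e_co in
theorem Pool.Agent.Results.MP_89824e_co.Structure.result {V : Type} [Finite V] (D : Digraph V)
    (hout : ∀ v, {w | D.Adj v w}.ncard = 2)
    (G : Type) [Group G] [Finite G] (H : Subgroup G) (S : Set G) (hp : IsPres D G H S) :
    ∃ K : ℕ, 2 ^ K ≤ Nat.card H ∧ HasPres D (2 ^ K) ∧ (K ≤ 1 ∨
      (∃ (r s : ℕ) (f : (ZMod 2)[X]), 0 < r ∧ 1 ≤ s ∧ Irreducible f ∧ f ∣ X ^ r - 1 ∧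
        f.natDegree = s + K ∧ RegCover D (PX r s)) ∨
      (¬ Group.IsSolvable G ∧
        ∃ (Q : Type) (_ : Group Q) (_ : Finite Q) (H' : Subgroup Q) (S' : Set Q) (W : Type)
          (E : Digraph W), IsPres E Q H' S' ∧ Nat.card H' = 2 ^ K ∧ RegCover D E ∧
          (∃ (L : Subgroup G) (π : L →* Q), Function.Surjective π) ∧
          commutator Q ≠ ⊥ ∧ ⁅commutator Q, commutator Q⁆ = commutator Q ∧
          (∀ N : Subgroup Q, N.Normal → N ≠ ⊥ → commutator Q ≤ N) ∧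
          IsCyclic (Q ⧸ commutator Q))) :=
  all_main D hout G H S hp
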